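import Pool.Agent.helper13.U4.SpecY

set_option autoImplicit false

namespace Pool.Agent.U4

open Pool.Agent.UL

/-- the check for given values -/
def KL5_c (w0 w1 w2 w3 w4 w5 w6 u0 u1 u2 u5 z4 z5 z6 : Bool) : Bool :=
  !(decide ([w0, w5, w6, u0, u1, u2, u5, z4, z5, z6].count true ≤ 1) && !(ex1 w0 w1 w2) &&
    !(ex1 w1 w2 w3) && !(ex1 w2 w3 w4) && !(ex1 w3 w4 w5) && !(ex1 w4 w5 w6)) || (!w0 && !w1)

/-- the check for given values of `u` -/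
def KL5_d (u0 u1 u2 u3 u4 u5 u6 u7 u8 z4 z5 z6 : Bool) : Bool :=
  KL5_c (ex1 u0 u1 u2) (ex1 u1 u2 u3) (ex1 u2 u3 u4) (ex1 u3 u4 u5) (ex1 u4 u5 u6) (ex1 u5 u6 u7)
    (ex1 u6 u7 u8) u0 u1 u2 u5 z4 z5 z6

/-- the check for given values of `z` -/
def KL5_e (z0 z1 z2 z3 z4 z5 z6 z7 z8 z9 z10 : Bool) : Bool :=
  KL5_d (ex1 z0 z1 z2) (ex1 z1 z2 z3) (ex1 z2 z3 z4) (ex1 z3 z4 z5) (ex1 z4 z5 z6) (ex1 z5 z6 z7)
    (ex1 z6 z7 z8) (ex1 z7 z8 z9) (ex1 z8 z9 z10) z4 z5 z6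

theorem KL5_all : ∀ z0 z1 z2 z3 z4 z5 z6 z7 z8 z9 z10 : Bool,
    KL5_e z0 z1 z2 z3 z4 z5 z6 z7 z8 z9 z10 = true := by
  decide +kernel

theorem KL5 : KL5_stmt := by
  intro z u w hu hw hc hd
  have h := KL5_all (z 0) (z 1) (z 2) (z 3) (z 4) (z 5) (z 6) (z 7) (z 8) (z 9) (z 10)
  unfold KL5_e at h
  have u0 := hu 0 (by norm_num)
  have u1 := hu 1 (by norm_num)
  have u2 := hu 2 (by norm_num)
  have u3 := hu 3 (by norm_num)
  have u4 := hu 4 (by norm_num)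
  have u5 := hu 5 (by norm_num)
  have u6 := hu 6 (by norm_num)
  have u7 := hu 7 (by norm_num)
  have u8 := hu 8 (by norm_num)
  norm_num only at u0 u1 u2 u3 u4 u5 u6 u7 u8
  rw [← u0, ← u1, ← u2, ← u3, ← u4, ← u5, ← u6, ← u7, ← u8] at h
  unfold KL5_d at h
  have w0 := hw 0 (by norm_num)
  have w1 := hw 1 (by norm_num)
  have w2 := hw 2 (by norm_num)
  have w3 := hw 3 (by norm_num)
  have w4 := hw 4 (by norm_num)
  have w5 := hw 5 (by norm_num)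
  have w6 := hw 6 (by norm_num)
  norm_num only at w0 w1 w2 w3 w4 w5 w6
  rw [← w0, ← w1, ← w2, ← w3, ← w4, ← w5, ← w6] at h
  unfold KL5_c at h
  have d0 := hd 0 (by norm_num)
  have d1 := hd 1 (by norm_num)
  have d2 := hd 2 (by norm_num)
  have d3 := hd 3 (by norm_num)
  have d4 := hd 4 (by norm_num)
  norm_num only at d0 d1 d2 d3 d4
  have hc' : decide ([w 0, w 5, w 6, u 0, u 1, u 2, u 5, z 4, z 5, z 6].count true ≤ 1) = true :=
    decide_eq_true hc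
  rw [hc', d0, d1, d2, d3, d4] at h
  have h2 : (!w 0 && !w 1) = true := by simpa using h
  rcases hw0 : w 0 with _ | _
  · rcases hw1 : w 1 with _ | _
    · exact ⟨rfl, rfl⟩
    · rw [hw0, hw1] at h2
      exact absurd h2 (by decide)
  · rw [hw0] at h2
    exact absurd h2 (by simp)

end Pool.Agent.U4
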