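import Pool.Agent.helper13.U4.Spec

set_option autoImplicit false

namespace Pool.Agent.U4

open Pool.Agent.UL

theorem LB1 (h1 : GST_stmt) (h2 : GPW_stmt) : LB1_stmt := by
  intro k h v ρ x hk hh hv hx hρ hbase t ht
  have h0 : ∀ r, (g 0 r = true ↔ r = 0) := h2.2.2.2.2.1
  have hpow : ∀ r, (g h r = true ↔ r = 0 ∨ r = 2 * h) := by
    intro r
    rw [hh]
    exact h2.1 k (by omega) r
  have hpos : 0 < h := by rw [hh]; exact Nat.two_pow_pos k
  induction t, ht using Nat.le_induction with
  | base =>
    intro _ r hr
    rw [Nat.mod_self]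
    have a := hbase r hr
    have b := h0 r
    rw [Bool.eq_iff_iff]
    exact a.trans b.symm
  | succ t ht ih =>
    intro hv' r hr
    have IH := ih (by omega)
    have hlt : t < v := by omega
    have step : x (t + 1) r = g (t % h + 1) r := by
      rcases r with _ | _ | r
      · rw [hx.s0 t hlt, IH 0 hr, h1.1]
      · have := hx.s1 t hlt
        simp only [zero_add] at hr ⊢
        rw [this, IH 1 hr, IH 0 (by omega), h1.2.1]
      · rw [show r + 1 + 1 = r + 2 from rfl] at hr ⊢
        rw [hx.s2 t hlt r, IH (r + 2) hr, IH (r + 1) (by omega), IH r (by omega), h1.2.2]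
    rw [step]
    by_cases hc : t % h + 1 < h
    · have : (t + 1) % h = t % h + 1 := by
        rw [Nat.add_mod, Nat.mod_eq_of_lt (by omega : 1 < h), Nat.mod_eq_of_lt hc]
      rw [this]
    · have hlt2 := Nat.mod_lt t hpos
      have he : t % h + 1 = h := by omega
      have h3 : (t + 1) % h = 0 := by
        have : t + 1 = h * (t / h) + (t % h + 1) := by
          have := Nat.div_add_mod t h
          omega
        rw [this, he, Nat.mul_add_mod, Nat.mod_self]
      rw [he, h3, Bool.eq_iff_iff, hpow, h0]
      constructor
      · intro h'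
        rcases h' with h' | h'
        · exact h'
        · omega
      · intro h'
        exact Or.inl h'

end Pool.Agent.U4
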