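import Pool.Agent.helper13.U4.SpecD

set_option autoImplicit false

namespace Pool.Agent.U4

open Pool.Agent.UL

theorem PTW : PTW_stmt := by
  intro v x P σ
  constructor
  · rintro ⟨r1, r2, t1, u1, t2, u2, hr, ht, hP, e1, e2, a1, a2, a3, a4, b1, b2, b3, b4⟩
    refine ⟨r1, t1, r2, u1, r1, t2, r2, u2, ?_, ?_, ?_, ?_⟩
    · exact ⟨b1, b2, a1, a2, fun h => hr h.1, Or.inl ⟨hP, e1⟩⟩
    · exact ⟨b3, b4, a3, a4, fun h => hr h.1, Or.inl ⟨hP, e2⟩⟩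
    · exact fun h => ht h.2.symm
    · exact fun h => hr h.1
  · rintro ⟨r1, r2, t1, u1, t2, u2, hr, ht, hP, e1, e2, a1, a2, a3, a4, b1, b2, b3, b4⟩
    refine ⟨r1, t1, r2, u1, r1, t2, r2, u2, ?_, ?_, ?_, ?_⟩
    · exact ⟨b1, b2, a1, a2, fun h => hr h.1, Or.inr ⟨by omega, e1⟩⟩
    · exact ⟨b3, b4, a3, a4, fun h => hr h.1, Or.inr ⟨by omega, e2⟩⟩
    · exact fun h => ht h.2.symm
    · exact fun h => hr h.1

end Pool.Agent.U4
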