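import Pool.Agent.helper13.U4.Spec

set_option autoImplicit false

namespace Pool.Agent.U4

open Pool.Agent.UL

/-- the pair with the even element `e` -/
def VCO_P (n e : ℕ) : ℕ × ℕ := (min e (n - e), max e (n - e))

theorem VCO_ne (n e e' : ℕ) (hn : n % 2 = 1) (he : e % 2 = 0) (he' : e' % 2 = 0) (h : e ≤ n)
    (h' : e' ≤ n) (hne : e ≠ e') : VCO_P n e ≠ VCO_P n e' := by
  intro hP
  unfold VCO_P at hP
  rw [Prod.mk.injEq] at hP
  omega

theorem VCO_mem (v : ℕ) (F : ℤ → Bool) (hF : IsF v F) (n e : ℕ) (hn : n % 2 = 1)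
    (he2 : e % 2 = 0) (he : e ∈ Vs v F) (j : ℤ) (hj : F j = true) (hs : (n : ℤ) = e + v + 2 * j) :
    Rep (Vs v F) n (VCO_P n e) ∧ e ≤ n := by
  have hj0 : 0 ≤ j := by
    by_contra h
    rw [hF.neg j (by omega)] at hj
    exact Bool.noConfusion hj
  obtain ⟨i, rfl⟩ := Int.eq_ofNat_of_zero_le hj0
  have h1 : n - e = v + 2 * i := by omega
  have h2 : n - e ∈ Vs v F := by
    right
    right
    right
    exact ⟨i, hj, h1⟩
  have hle : e ≤ n := by omega
  refine ⟨?_, hle⟩
  unfold Pool.Agent.UL.Rep VCO_P
  simp only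
  refine ⟨by omega, ?_, ?_, by omega⟩
  · rcases min_choice e (n - e) with h | h
    · rw [h]; exact he
    · rw [h]; exact h2
  · rcases max_choice e (n - e) with h | h
    · rw [h]; exact he
    · rw [h]; exact h2

theorem VCO_conv (v : ℕ) (F : ℤ → Bool) (hv : v % 2 = 1) (n : ℕ) (hn : n % 2 = 1) (p : ℕ × ℕ)
    (hp : Rep (Vs v F) n p) : ∃ e : ℕ, (e = 4 ∨ e = 2 * v + 4 ∨ e = 4 * v + 4) ∧ ∃ j : ℤ,
      F j = true ∧ (n : ℤ) = e + v + 2 * j ∧ p = VCO_P n e := by
  obtain ⟨h1, h2, h3, h4⟩ := hp
  have split : ∀ x, x ∈ Vs v F → (x % 2 = 0 ∧ (x = 4 ∨ x = 2 * v + 4 ∨ x = 4 * v + 4)) ∨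
      (x % 2 = 1 ∧ ∃ i : ℕ, F i = true ∧ x = v + 2 * i) := by
    intro x hx
    rcases hx with h | h | h | ⟨i, hi, h⟩
    · left; exact ⟨by omega, Or.inl h⟩
    · left; exact ⟨by omega, Or.inr (Or.inl h)⟩
    · left; exact ⟨by omega, Or.inr (Or.inr h)⟩
    · right; exact ⟨by omega, i, hi, h⟩
  rcases split _ h2 with ⟨a1, a2⟩ | ⟨a1, i, a2, a3⟩
  · rcases split _ h3 with ⟨b1, b2⟩ | ⟨b1, i, b2, b3⟩
    · omega
    · refine ⟨p.1, a2, i, b2, by omega, ?_⟩
      unfold VCO_P
      apply Prod.ext
      · simp only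
        omega
      · simp only
        omega
  · rcases split _ h3 with ⟨b1, b2⟩ | ⟨b1, i', b2, b3⟩
    · refine ⟨p.2, b2, i, a2, by omega, ?_⟩
      unfold VCO_P
      apply Prod.ext
      · simp only
        omega
      · simp only
        omega
    · omega

theorem VCO : VCO_stmt := by
  intro v F hv hv5 hF
  constructor
  · intro n hn
    constructor
    · intro h
      rcases h with h | h | h | ⟨i, hi, h⟩
      · exact Or.inl h
      · omega
      · omega
      · right; omega
    · intro h
      rcases h with h | h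
      · exact Or.inl h
      · right; right; right
        exact ⟨0, by exact_mod_cast hF.zero, by omega⟩
  · intro n hn hodd
    obtain ⟨m, hm⟩ : ∃ m : ℕ, n = v + 2 * m := ⟨(n - v) / 2, by omega⟩
    have hm0 : (0 : ℤ) < m := by omega
    have hmem : n ∈ Vs v F ↔ F m = true := by
      constructor
      · intro h
        rcases h with h | h | h | ⟨i, hi, h⟩
        · omega
        · omega
        · omega
        · have : i = m := by omega
          rw [← this]
          exact hi
      · intro h
        right; right; right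
        exact ⟨m, h, hm⟩
    have e4 : 4 ∈ Vs v F := Or.inl rfl
    have e5 : 2 * v + 4 ∈ Vs v F := Or.inr (Or.inl rfl)
    have e6 : 4 * v + 4 ∈ Vs v F := Or.inr (Or.inr (Or.inl rfl))
    have RA : F ((m : ℤ) - 2) = true → Rep (Vs v F) n (VCO_P n 4) ∧ 4 ≤ n := fun h =>
      VCO_mem v F hF n 4 hodd (by omega) e4 _ h (by push_cast; omega)
    have RB : F ((m : ℤ) - v - 2) = true → Rep (Vs v F) n (VCO_P n (2 * v + 4)) ∧ 2 * v + 4 ≤ n :=
      fun h => VCO_mem v F hF n (2 * v + 4) hodd (by omega) e5 _ h (by push_cast; omega)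
    have RC : F ((m : ℤ) - 2 * v - 2) = true →
        Rep (Vs v F) n (VCO_P n (4 * v + 4)) ∧ 4 * v + 4 ≤ n :=
      fun h => VCO_mem v F hF n (4 * v + 4) hodd (by omega) e6 _ h (by push_cast; omega)
    have conv : ∀ p, Rep (Vs v F) n p → (F ((m : ℤ) - 2) = true ∧ p = VCO_P n 4) ∨
        (F ((m : ℤ) - v - 2) = true ∧ p = VCO_P n (2 * v + 4)) ∨
        (F ((m : ℤ) - 2 * v - 2) = true ∧ p = VCO_P n (4 * v + 4)) := by
      intro p hp
      obtain ⟨e, he, j, hj, hs, hpe⟩ := VCO_conv v F hv n hodd p hp
      rcases he with he | he | he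
      · left
        subst he
        have : j = (m : ℤ) - 2 := by push_cast at hs; omega
        rw [← this]
        exact ⟨hj, hpe⟩
      · right; left
        subst he
        have : j = (m : ℤ) - v - 2 := by push_cast at hs; omega
        rw [← this]
        exact ⟨hj, hpe⟩
      · right; right
        subst he
        have : j = (m : ℤ) - 2 * v - 2 := by push_cast at hs; omega
        rw [← this]
        exact ⟨hj, hpe⟩
    rw [hmem, hF.recF m hm0]
    rcases hA : F ((m : ℤ) - 2) with _ | _ <;> rcases hB : F ((m : ℤ) - v - 2) with _ | _ <;>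
      rcases hC : F ((m : ℤ) - 2 * v - 2) with _ | _ <;> rw [hA] at RA conv <;>
      rw [hB] at RB conv <;> rw [hC] at RC conv
    · -- fff
      simp only [ex1]
      constructor
      · intro h; simp at h
      · rintro ⟨p, hp, -⟩
        rcases conv p hp with h | h | h <;> exact absurd h.1 (by decide)
    · -- fft
      simp only [ex1]
      refine ⟨fun _ => ⟨_, (RC rfl).1, fun p hp => ?_⟩, fun _ => rfl⟩
      rcases conv p hp with h | h | h
      · exact absurd h.1 (by decide)
      · exact absurd h.1 (by decide)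
      · exact h.2
    · -- ftf
      simp only [ex1]
      refine ⟨fun _ => ⟨_, (RB rfl).1, fun p hp => ?_⟩, fun _ => rfl⟩
      rcases conv p hp with h | h | h
      · exact absurd h.1 (by decide)
      · exact h.2
      · exact absurd h.1 (by decide)
    · -- ftt
      simp only [ex1]
      constructor
      · intro h; simp at h
      · rintro ⟨p, -, hp⟩
        have a := hp _ (RB rfl).1
        have b := hp _ (RC rfl).1
        exact absurd (a.trans b.symm)
          (VCO_ne n _ _ hodd (by omega) (by omega) (RB rfl).2 (RC rfl).2 (by omega))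
    · -- tff
      simp only [ex1]
      refine ⟨fun _ => ⟨_, (RA rfl).1, fun p hp => ?_⟩, fun _ => rfl⟩
      rcases conv p hp with h | h | h
      · exact h.2
      · exact absurd h.1 (by decide)
      · exact absurd h.1 (by decide)
    · -- tft
      simp only [ex1]
      constructor
      · intro h; simp at h
      · rintro ⟨p, -, hp⟩
        have a := hp _ (RA rfl).1
        have b := hp _ (RC rfl).1
        exact absurd (a.trans b.symm)
          (VCO_ne n _ _ hodd (by omega) (by omega) (RA rfl).2 (RC rfl).2 (by omega))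
    · -- ttf
      simp only [ex1]
      constructor
      · intro h; simp at h
      · rintro ⟨p, -, hp⟩
        have a := hp _ (RA rfl).1
        have b := hp _ (RB rfl).1
        exact absurd (a.trans b.symm)
          (VCO_ne n _ _ hodd (by omega) (by omega) (RA rfl).2 (RB rfl).2 (by omega))
    · -- ttt
      simp only [ex1]
      constructor
      · intro h; simp at h
      · rintro ⟨p, -, hp⟩
        have a := hp _ (RA rfl).1
        have b := hp _ (RB rfl).1
        exact absurd (a.trans b.symm)
          (VCO_ne n _ _ hodd (by omega) (by omega) (RA rfl).2 (RB rfl).2 (by omega))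

end Pool.Agent.U4
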